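import Pool.Agent.H22.IA.Cnt

/-!
The number of the residue classes in `P^1(F_p)^n` with exceptional conditions.
-/

set_option autoImplicit false

namespace Pool.Agent.H22.LP

open Finset

/-- one coordinate -/
theorem card_fib {α : Type} [Fintype α] [DecidableEq α] {n : ℕ} (j : Fin n)
    (P Q : (Fin n → α) → Prop) [DecidablePred P] [DecidablePred Q] {K : ℕ}
    (hP : ∀ (β : Fin n → α) (y : α), P β → P (Function.update β j y))
    (hK : ∀ β : Fin n → α, (univ.filter fun y : α => Q (Function.update β j y)).card ≤ K) :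
    (univ.filter fun β => P β ∧ Q β).card * Fintype.card α ≤ K * (univ.filter P).card := by
  classical
  set T : Finset ((Fin n → α) × α) :=
    ((univ.filter P) ×ˢ (univ : Finset α)).filter fun x => Q (Function.update x.1 j x.2)
    with hT
  have h1 : T.card ≤ K * (T.image Prod.fst).card := by
    refine card_le_mul_card_image T K fun β _ => ?_
    refine le_trans ?_ (hK β)
    refine card_le_card_of_injOn Prod.snd ?_ ?_
    · rintro ⟨β', y⟩ hx
      rw [mem_coe, mem_filter, hT, mem_filter] at hx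
      obtain ⟨⟨-, h2⟩, h3⟩ := hx
      dsimp only at h2 h3
      subst h3
      rw [mem_coe, mem_filter]
      exact ⟨mem_univ _, h2⟩
    · rintro ⟨β', y⟩ hx ⟨β'', y'⟩ hx' h
      rw [mem_coe, mem_filter] at hx hx'
      have h2 : β' = β'' := hx.2.trans hx'.2.symm
      exact Prod.ext h2 h
  have h2 : (T.image Prod.fst).card ≤ (univ.filter P).card := by
    refine card_le_card fun β hβ => ?_
    obtain ⟨x, hx, rfl⟩ := mem_image.1 hβ
    rw [hT, mem_filter, mem_product] at hx
    exact hx.1.1
  have h3 : ((univ.filter fun β => P β ∧ Q β) ×ˢ (univ : Finset α)).card ≤ T.card := by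
    refine card_le_card_of_injOn (fun x => (Function.update x.1 j x.2, x.1 j)) ?_ ?_
    · rintro ⟨β, y⟩ hx
      rw [mem_coe, mem_product, mem_filter] at hx
      rw [mem_coe, hT, mem_filter, mem_product, mem_filter]
      refine ⟨⟨⟨mem_univ _, hP β y hx.1.2.1⟩, mem_univ _⟩, ?_⟩
      dsimp only
      rw [Function.update_idem, Function.update_eq_self]
      exact hx.1.2.2
    · rintro ⟨β, y⟩ _ ⟨β', y'⟩ _ h
      have h4 : Function.update β j y = Function.update β' j y' := congrArg Prod.fst h
      have h5 : β j = β' j := congrArg Prod.snd h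
      have h6 := congrFun h4 j
      rw [Function.update_self, Function.update_self] at h6
      refine Prod.ext (funext fun i => ?_) h6
      by_cases hi : i = j
      · rw [hi]
        exact h5
      · have h7 := congrFun h4 i
        rwa [Function.update_of_ne hi, Function.update_of_ne hi] at h7
  rw [card_product, card_univ] at h3
  exact h3.trans (h1.trans (Nat.mul_le_mul_left _ h2))

variable {p n : ℕ}

/-- two finite residue classes which can contain isogenous points -/
def Lk (t : ZMod p → ℕ) : Option (ZMod p) → Option (ZMod p) → Prop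
  | some y, some z => IsSquare ((4 * (p : ℤ) - t y ^ 2) * (4 * p - t z ^ 2))
  | _, _ => False

/-- the exceptional residue classes: `0`, `1728` and the supersingular ones -/
def Ex (t : ZMod p → ℕ) (c : Option (ZMod p)) : Prop :=
  ∃ y, c = some y ∧ (y = 0 ∨ y = 1728 ∨ t y = 0)

theorem lk_symm {t : ZMod p → ℕ} {c d : Option (ZMod p)} (h : Lk t c d) : Lk t d c := by
  rcases c with _ | y <;> rcases d with _ | z
  · exact h
  · exact h
  · exact h
  · have h' : IsSquare ((4 * (p : ℤ) - t y ^ 2) * (4 * p - t z ^ 2)) := h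
    show IsSquare ((4 * (p : ℤ) - t z ^ 2) * (4 * p - t y ^ 2))
    rwa [mul_comm]

/-- The exceptional conditions on the coordinate `a`. -/
def Ev (t : ZMod p → ℕ) (β : Fin n → Option (ZMod p)) : Option (Fin n) → Fin n → Prop
  | none, a => Ex t (β a)
  | some i, a => Lk t (β i) (β a)

/-- one exceptional condition -/
def Bad1 (t : ZMod p → ℕ) (β : Fin n → Option (ZMod p)) : Prop :=
  ∃ (u : Option (Fin n)) (a : Fin n), u ≠ some a ∧ Ev t β u a

/-- two exceptional conditions -/
def Bad2 (t : ZMod p → ℕ) (β : Fin n → Option (ZMod p)) : Prop :=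
  ∃ (u v : Option (Fin n)) (a b : Fin n), (a ≠ b ∧ u ≠ some a ∧ u ≠ some b ∧ v ≠ some b) ∧
    Ev t β u a ∧ Ev t β v b

theorem ev_symm {t : ZMod p → ℕ} {β : Fin n → Option (ZMod p)} {i j : Fin n}
    (h : Ev t β (some i) j) : Ev t β (some j) i := lk_symm h

/-- at most one exceptional condition -/
theorem one_event (hn : 0 < n) {t : ZMod p → ℕ} {β : Fin n → Option (ZMod p)}
    (h : ¬ Bad2 t β) :
    ∃ i₀ j₀ : Fin n, (∀ i, Ex t (β i) → i = i₀ ∧ i = j₀) ∧
      ∀ i j, i ≠ j → Lk t (β i) (β j) → (i = i₀ ∧ j = j₀) ∨ (i = j₀ ∧ j = i₀) := by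
  have some_ne : ∀ {x y : Fin n}, x ≠ y → (some x : Option (Fin n)) ≠ some y := fun h h' =>
    h (Option.some.inj h')
  by_cases h1 : ∃ i, Ex t (β i)
  · obtain ⟨i, hi⟩ := h1
    refine ⟨i, i, fun i' hi' => ?_, fun k l hkl hE => ?_⟩
    · by_contra hcon
      have hne : i ≠ i' := fun h' => hcon ⟨h'.symm, h'.symm⟩
      exact h ⟨none, none, i, i', ⟨hne, by simp, by simp, by simp⟩, hi, hi'⟩
    · exfalso
      by_cases hl : l = i
      · subst hl
        exact h ⟨none, some l, l, k, ⟨hkl.symm, by simp, by simp, some_ne hkl.symm⟩, hi,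
          lk_symm hE⟩
      · exact h ⟨none, some k, i, l, ⟨fun h' => hl h'.symm, by simp, by simp, some_ne hkl⟩, hi, hE⟩
  · by_cases h2 : ∃ k l, k ≠ l ∧ Lk t (β k) (β l)
    · obtain ⟨k, l, hkl, hE⟩ := h2
      refine ⟨k, l, fun i hi => absurd ⟨i, hi⟩ h1, fun k' l' hkl' hE' => ?_⟩
      by_contra hcon
      rw [not_or] at hcon
      obtain ⟨hc1, hc2⟩ := hcon
      by_cases hl1 : l' = k
      · have hk1 : k' ≠ l := fun h' => hc2 ⟨h', hl1⟩
        have hk2 : k' ≠ k := fun h' => hkl' (h'.trans hl1.symm)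
        exact h ⟨some k, some l', l, k', ⟨hk1.symm, some_ne hkl, some_ne hk2.symm,
          some_ne hkl'.symm⟩, hE, lk_symm hE'⟩
      · by_cases hl2 : l' = l
        · have hk1 : k' ≠ k := fun h' => hc1 ⟨h', hl2⟩
          have hk2 : k' ≠ l := fun h' => hkl' (h'.trans hl2.symm)
          exact h ⟨some k, some l', l, k', ⟨hk2.symm, some_ne hkl, some_ne hk1.symm,
            some_ne hkl'.symm⟩, hE, lk_symm hE'⟩
        · exact h ⟨some k, some k', l, l', ⟨fun h' => hl2 h'.symm, some_ne hkl,
            some_ne (fun h' => hl1 h'.symm), some_ne hkl'⟩, hE, hE'⟩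
    · refine ⟨⟨0, hn⟩, ⟨0, hn⟩, fun i hi => absurd ⟨i, hi⟩ h1, fun i j hij hE => ?_⟩
      exact absurd ⟨i, j, hij, hE⟩ h2

/-- The number of the classes with an exceptional condition on one coordinate. -/
theorem ev_card (hp : p.Prime) (t : ZMod p → ℕ) (ht1 : ∀ β, (t β : ℤ) ^ 2 < 4 * p) {S : ℕ}
    (hS : ∀ s, {β | t β = s}.ncard ≤ S) {u : Option (Fin n)} {a : Fin n} (hua : u ≠ some a)
    (β : Fin n → Option (ZMod p)) [NeZero p]
    [DecidablePred fun y : Option (ZMod p) => Ev t (Function.update β a y) u a] :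
    (univ.filter fun y : Option (ZMod p) => Ev t (Function.update β a y) u a).card ≤
      2 + 81 * S := by
  classical
  have hfib : ∀ s, (univ.filter fun y : ZMod p => t y = s).card ≤ S := by
    intro s
    have h1 := hS s
    rwa [← Set.ncard_coe_finset, Finset.coe_filter, show {x | x ∈ univ ∧ t x = s} = {β | t β = s} by
      ext; simp]
  rcases u with _ | i
  · have h1 : (univ.filter fun y : Option (ZMod p) => Ev t (Function.update β a y) none a) ⊆
        (({0} ∪ {1728}) ∪ (univ.filter fun y : ZMod p => t y = 0)).image some := by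
      intro y hy
      rw [mem_filter] at hy
      have h2 : Ex t (Function.update β a y a) := hy.2
      rw [Function.update_self] at h2
      obtain ⟨z, rfl, h2⟩ := h2
      rw [mem_image]
      refine ⟨z, ?_, rfl⟩
      rw [mem_union, mem_union, mem_singleton, mem_singleton, mem_filter]
      rcases h2 with h2 | h2 | h2
      · exact Or.inl (Or.inl h2)
      · exact Or.inl (Or.inr h2)
      · exact Or.inr ⟨mem_univ _, h2⟩
    refine (card_le_card h1).trans (card_image_le.trans ((card_union_le _ _).trans ?_))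
    have h3 := card_union_le ({0} : Finset (ZMod p)) {1728}
    rw [card_singleton, card_singleton] at h3
    have h4 := hfib 0
    omega
  · have hia : i ≠ a := fun h => hua (by rw [h])
    have h0 : (univ.filter fun y : Option (ZMod p) => Ev t (Function.update β a y) (some i) a) ⊆
        univ.filter fun y : Option (ZMod p) => Lk t (β i) y := by
      intro y hy
      rw [mem_filter] at hy
      have h2 : Lk t (Function.update β a y i) (Function.update β a y a) := hy.2
      rw [Function.update_self, Function.update_of_ne hia] at h2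
      rw [mem_filter]
      exact ⟨mem_univ _, h2⟩
    refine (card_le_card h0).trans ?_
    rcases hβ : β i with _ | z
    · refine le_trans (card_le_card (t := ∅) fun y hy => ?_) (Nat.zero_le _)
      rw [mem_filter] at hy
      exact absurd hy.2 (by rcases y with _ | y <;> exact id)
    · obtain ⟨E, hE1, hE2⟩ := IA.class_card hp (t z) (ht1 _)
      have h1 : (univ.filter fun y : Option (ZMod p) => Lk t (some z) y) ⊆
          (E.biUnion fun s => univ.filter fun y : ZMod p => t y = s).image some := by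
        intro y hy
        rw [mem_filter] at hy
        rcases y with _ | y
        · exact absurd hy.2 id
        · have h2 : IsSquare ((4 * (p : ℤ) - t z ^ 2) * (4 * p - t y ^ 2)) := hy.2
          rw [mem_image]
          refine ⟨y, ?_, rfl⟩
          rw [mem_biUnion]
          exact ⟨t y, hE2 _ (ht1 y) h2, by simp⟩
      calc _ ≤ _ := card_le_card h1
        _ ≤ _ := card_image_le
        _ ≤ ∑ s ∈ E, (univ.filter fun y : ZMod p => t y = s).card := card_biUnion_le
        _ ≤ ∑ s ∈ E, S := sum_le_sum fun s _ => hfib s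
        _ = E.card * S := by rw [sum_const, smul_eq_mul]
        _ ≤ 81 * S := Nat.mul_le_mul_right _ hE1
        _ ≤ _ := Nat.le_add_left _ _

theorem count_bad1 (hp : p.Prime) (t : ZMod p → ℕ) (ht1 : ∀ β, (t β : ℤ) ^ 2 < 4 * p) {S : ℕ}
    (hS : ∀ s, {β | t β = s}.ncard ≤ S) (n : ℕ) :
    {β : Fin n → Option (ZMod p) | Bad1 t β}.ncard * (p + 1) ≤
      ((n + 1) * n) * (2 + 81 * S) * (p + 1) ^ n := by
  classical
  have _ : Fact p.Prime := ⟨hp⟩
  have _ : NeZero p := ⟨hp.ne_zero⟩
  have hcard : Fintype.card (Option (ZMod p)) = p + 1 := by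
    rw [Fintype.card_option, ZMod.card]
  let I := Option (Fin n) × Fin n
  let F : I → Finset (Fin n → Option (ZMod p)) := fun x => univ.filter fun β =>
    (x.1 ≠ some x.2) ∧ Ev t β x.1 x.2
  have hcF : ∀ x : I, (F x).card * (p + 1) ≤ (2 + 81 * S) * (p + 1) ^ n := by
    rintro ⟨u, a⟩
    by_cases hok : u ≠ some a
    swap
    · refine le_trans (le_of_eq ?_) (Nat.zero_le _)
      have h1 : F (u, a) = ∅ := by
        show (univ.filter fun β => (u ≠ some a) ∧ Ev t β u a) = ∅
        rw [filter_eq_empty_iff]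
        intro β _ h
        exact hok h.1
      rw [h1, card_empty, zero_mul]
    have c1 := card_fib a (fun _ : Fin n → Option (ZMod p) => u ≠ some a)
      (fun β => Ev t β u a) (fun _ _ h => h) (fun β => ev_card hp t ht1 hS hok β)
    rw [hcard] at c1
    refine c1.trans (Nat.mul_le_mul_left _ ?_)
    refine (card_le_univ _).trans ?_
    rw [Fintype.card_pi, prod_const, hcard, card_univ, Fintype.card_fin]
  have h1 : {β : Fin n → Option (ZMod p) | Bad1 t β} ⊆
      ((univ.biUnion F : Finset (Fin n → Option (ZMod p))) : Set (Fin n → Option (ZMod p))) := by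
    rintro β ⟨u, a, hok, h2⟩
    rw [mem_coe, mem_biUnion]
    refine ⟨(u, a), mem_univ _, ?_⟩
    rw [mem_filter]
    exact ⟨mem_univ _, hok, h2⟩
  have h2 : {β : Fin n → Option (ZMod p) | Bad1 t β}.ncard ≤ (univ.biUnion F).card := by
    rw [← Set.ncard_coe_finset]
    exact Set.ncard_le_ncard h1 (Finset.finite_toSet _)
  calc _ ≤ (univ.biUnion F).card * (p + 1) := Nat.mul_le_mul_right _ h2
    _ ≤ (∑ x, (F x).card) * (p + 1) := Nat.mul_le_mul_right _ card_biUnion_le
    _ = ∑ x, (F x).card * (p + 1) := sum_mul _ _ _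
    _ ≤ ∑ _x : I, (2 + 81 * S) * (p + 1) ^ n := sum_le_sum fun x _ => hcF x
    _ = _ := by
      rw [sum_const, smul_eq_mul, card_univ, Fintype.card_prod, Fintype.card_option,
        Fintype.card_fin]
      ring

theorem count_bad2 (hp : p.Prime) (t : ZMod p → ℕ) (ht1 : ∀ β, (t β : ℤ) ^ 2 < 4 * p) {S : ℕ}
    (hS : ∀ s, {β | t β = s}.ncard ≤ S) (n : ℕ) :
    {β : Fin n → Option (ZMod p) | Bad2 t β}.ncard * (p + 1) ^ 2 ≤
      ((n + 1) * (n + 1) * n * n) * (2 + 81 * S) ^ 2 * (p + 1) ^ n := by
  classical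
  have _ : Fact p.Prime := ⟨hp⟩
  have _ : NeZero p := ⟨hp.ne_zero⟩
  have hcard : Fintype.card (Option (ZMod p)) = p + 1 := by
    rw [Fintype.card_option, ZMod.card]
  let I := (Option (Fin n) × Option (Fin n)) × (Fin n × Fin n)
  let Ok : I → Prop := fun x => x.2.1 ≠ x.2.2 ∧ x.1.1 ≠ some x.2.1 ∧ x.1.1 ≠ some x.2.2 ∧
    x.1.2 ≠ some x.2.2
  let F : I → Finset (Fin n → Option (ZMod p)) := fun x => univ.filter fun β =>
    (Ok x ∧ Ev t β x.1.1 x.2.1) ∧ Ev t β x.1.2 x.2.2
  have hcF : ∀ x : I, (F x).card * (p + 1) ^ 2 ≤ (2 + 81 * S) ^ 2 * (p + 1) ^ n := by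
    rintro ⟨⟨u, v⟩, ⟨a, b⟩⟩
    by_cases hok : Ok ((u, v), (a, b))
    swap
    · refine le_trans (le_of_eq ?_) (Nat.zero_le _)
      have h1 : F ((u, v), (a, b)) = ∅ := by
        show (univ.filter fun β => (Ok ((u, v), (a, b)) ∧ Ev t β u a) ∧ Ev t β v b) = ∅
        rw [filter_eq_empty_iff]
        intro β _ h
        exact hok h.1.1
      rw [h1, card_empty, zero_mul]
    obtain ⟨h1, h2, h3, h4⟩ := id hok
    dsimp only at h1 h2 h3 h4
    have c1 := card_fib b (fun β : Fin n → Option (ZMod p) => Ok ((u, v), (a, b)) ∧ Ev t β u a)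
      (fun β => Ev t β v b) (by
        rintro β y ⟨hk, hE⟩
        refine ⟨hk, ?_⟩
        rcases u with _ | i
        · show Ex t (Function.update β b y a)
          rw [Function.update_of_ne h1]
          exact hE
        · have hib : i ≠ b := fun h => h3 (by rw [h])
          show Lk t (Function.update β b y i) (Function.update β b y a)
          rw [Function.update_of_ne h1, Function.update_of_ne hib]
          exact hE) (fun β => ev_card hp t ht1 hS h4 β)
    have c2 := card_fib a (fun _ : Fin n → Option (ZMod p) => Ok ((u, v), (a, b)))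
      (fun β => Ev t β u a) (fun _ _ h => h) (fun β => ev_card hp t ht1 hS h2 β)
    rw [hcard] at c1 c2
    have c3 : (univ.filter fun _ : Fin n → Option (ZMod p) => Ok ((u, v), (a, b))).card ≤
        (p + 1) ^ n := by
      refine (card_le_univ _).trans ?_
      rw [Fintype.card_pi, prod_const, hcard, card_univ, Fintype.card_fin]
    calc (F ((u, v), (a, b))).card * (p + 1) ^ 2 =
        (F ((u, v), (a, b))).card * (p + 1) * (p + 1) := by ring
      _ ≤ ((2 + 81 * S) * (univ.filter fun β : Fin n → Option (ZMod p) =>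
          Ok ((u, v), (a, b)) ∧ Ev t β u a).card) * (p + 1) := Nat.mul_le_mul_right _ c1
      _ = (2 + 81 * S) * ((univ.filter fun β : Fin n → Option (ZMod p) =>
          Ok ((u, v), (a, b)) ∧ Ev t β u a).card * (p + 1)) := by ring
      _ ≤ (2 + 81 * S) * ((2 + 81 * S) * (univ.filter fun _ : Fin n → Option (ZMod p) =>
          Ok ((u, v), (a, b))).card) := Nat.mul_le_mul_left _ c2
      _ ≤ (2 + 81 * S) * ((2 + 81 * S) * (p + 1) ^ n) :=
        Nat.mul_le_mul_left _ (Nat.mul_le_mul_left _ c3)
      _ = _ := by ring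
  have h1 : {β : Fin n → Option (ZMod p) | Bad2 t β} ⊆
      ((univ.biUnion F : Finset (Fin n → Option (ZMod p))) : Set (Fin n → Option (ZMod p))) := by
    rintro β ⟨u, v, a, b, hok, h2, h3⟩
    rw [mem_coe, mem_biUnion]
    refine ⟨((u, v), (a, b)), mem_univ _, ?_⟩
    rw [mem_filter]
    exact ⟨mem_univ _, ⟨hok, h2⟩, h3⟩
  have h2 : {β : Fin n → Option (ZMod p) | Bad2 t β}.ncard ≤ (univ.biUnion F).card := by
    rw [← Set.ncard_coe_finset]
    exact Set.ncard_le_ncard h1 (Finset.finite_toSet _)
  calc _ ≤ (univ.biUnion F).card * (p + 1) ^ 2 := Nat.mul_le_mul_right _ h2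
    _ ≤ (∑ x, (F x).card) * (p + 1) ^ 2 := Nat.mul_le_mul_right _ card_biUnion_le
    _ = ∑ x, (F x).card * (p + 1) ^ 2 := sum_mul _ _ _
    _ ≤ ∑ _x : I, (2 + 81 * S) ^ 2 * (p + 1) ^ n := sum_le_sum fun x _ => hcF x
    _ = _ := by
      rw [sum_const, smul_eq_mul, card_univ, Fintype.card_prod, Fintype.card_prod,
        Fintype.card_prod, Fintype.card_option, Fintype.card_fin]
      ring

end Pool.Agent.H22.LP
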