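import Pool.Agent.H22.LP.Max

/-!
The residue classes modulo `p` at a place above `p`.
-/

set_option autoImplicit false

namespace Pool.Agent.H22.LP

open UpperHalfPlane H294ZP MvPolynomial Pool.Agent.N101.Y1 Pool.Agent.N101.ZP
open Pool.Agent.N135.ZO (M2 Rel OrdAt G0 Isog cm_radius exists_pkg ord_of_fix)

variable {V : ValuationSubring ℂ} {p : ℕ}

/-- the finite set of the singular moduli which occur -/
def TT (p m : ℕ) : Set ℂ := ⋃ t ∈ Finset.range (4 * p), ⋃ s ∈ IA.SS p t, LevT p m s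

theorem tt_finite (hp : p.Prime) (m : ℕ) : (TT p m).Finite := by
  obtain ⟨C', -, hC'⟩ := IA.card_SS 1 one_pos
  exact (Finset.finite_toSet _).biUnion fun t _ => (hC' p hp t).1.biUnion fun s _ =>
    levT_finite hp m s

theorem tt_mem {m : ℕ} {t : ℕ} (ht : t < 4 * p) {s : ℂ} (hs : s ∈ IA.SS p t) :
    LevT p m s ⊆ TT p m := fun _ hz =>
  Set.mem_iUnion₂.2 ⟨t, Finset.mem_range.2 ht, Set.mem_iUnion₂.2 ⟨s, hs, hz⟩⟩

/-- The data at a place. -/
theorem exists_dat (hp : p.Prime) (h5 : 5 ≤ p) (hpV : V.valuation (p : ℂ) < 1) :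
    ∃ t : ZMod p → ℕ, (∀ β, (t β : ℤ) ^ 2 < 4 * p) ∧
      (∀ s, {β | t β = s}.ncard ≤ (IA.SS p s).ncard) ∧
      (∀ (m : ℕ) (b : ℤ) (z : ℂ), (b : ZMod p) ≠ 0 → (b : ZMod p) ≠ 1728 → t b ≠ 0 →
        V.valuation (z - b) < 1 →
        (∀ k : ℕ, m ≤ k → V.valuation (z - b) ^ ((p - 1) * p ^ k) ≠ V.valuation (p : ℂ)) →
        (∃ τ' : ℍ, IsCM τ' ∧ jj τ' = z) → z ∈ TT p m) ∧
      ∀ (b b' : ℤ) (x y : ℂ), (b' : ZMod p) ≠ 0 → (b' : ZMod p) ≠ 1728 → t b' ≠ 0 →
        V.valuation (x - b) < 1 → V.valuation (y - b') < 1 → Isog x y →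
        IsSquare ((4 * (p : ℤ) - t b ^ 2) * (4 * p - t b' ^ 2)) := by
  classical
  have hfact : Fact p.Prime := ⟨hp⟩
  have hp2 : p ≠ 2 := by omega
  choose τ M hdet hrel hnear using fun β : ZMod p => IA.exists_root hp hpV (β.val : ℤ)
  obtain ⟨P⟩ := exists_pkg hp hp2
  -- the canonical values
  have htr : ∀ β, (M β).trace.natAbs ≠ 0 → ¬ (p : ℤ) ∣ (M β).trace := by
    intro β ht hdvd
    have h1 := IA.trace_lt hp (hdet β) (hrel β)
    have h2 : (M β).trace ≠ 0 := fun h => ht (by rw [h]; rfl)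
    obtain ⟨q, hq⟩ := hdvd
    have hq0 : q ≠ 0 := by
      rintro rfl
      exact h2 (by rw [hq, mul_zero])
    have h3 : 1 ≤ q ^ 2 := by
      have := sq_pos_of_ne_zero hq0
      omega
    rw [hq, mul_pow] at h1
    have h4 : (5 : ℤ) ≤ p := by exact_mod_cast h5
    have h6 : (p : ℤ) ^ 2 * 1 ≤ (p : ℤ) ^ 2 * q ^ 2 := mul_le_mul_of_nonneg_left h3 (sq_nonneg _)
    nlinarith
  have hbτ : ∀ b : ℤ, V.valuation ((b : ℂ) - jj (τ (b : ZMod p))) < 1 := by
    intro b
    have h0 : (b : ℤ) = ((b : ZMod p).val : ℤ) + p * (b / p) := by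
      rw [ZMod.val_intCast]
      exact (Int.emod_add_mul_ediv _ _).symm
    have h1 : ((b : ℤ) : ℂ) = ((((b : ZMod p).val : ℤ) + p * (b / p) : ℤ) : ℂ) := congrArg _ h0
    rw [Int.cast_add, Int.cast_mul, Int.cast_natCast] at h1
    have e : (b : ℂ) - jj (τ (b : ZMod p)) = ((((b : ZMod p).val : ℤ) : ℂ) -
        jj (τ (b : ZMod p))) + p * ((b / p : ℤ) : ℂ) := by
      rw [h1]
      push_cast
      ring
    rw [e]
    exact Valuation.map_add_lt _ (hnear _) (N135.ZO.lt_mul_mem hpV (intCast_mem V _))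
  have hunit : ∀ (e : ℤ) (β : ZMod p), β ≠ e → V.valuation (jj (τ β) - e) = 1 := by
    intro e β he
    have h1 : ¬ (p : ℤ) ∣ ((β.val : ℤ) - e) := by
      rw [← ZMod.intCast_zmod_eq_zero_iff_dvd]
      push_cast
      rw [sub_eq_zero, ZMod.natCast_zmod_val]
      exact he
    have h2 := IA.trace_unit hp hpV h1
    have h3 : jj (τ β) - e = (((β.val : ℤ) - e : ℤ) : ℂ) + (-(((β.val : ℤ) : ℂ) - jj (τ β))) := by
      push_cast
      ring
    rw [h3]
    refine N135.ZO.val_add_one h2 ?_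
    rw [Valuation.map_neg]
    exact hnear β
  have hn0 : ∀ β : ZMod p, β ≠ 0 → V.valuation (jj (τ β)) = 1 := by
    intro β hβ
    have h1 := hunit 0 β (by simpa using hβ)
    rwa [Int.cast_zero, sub_zero] at h1
  have hn1 : ∀ β : ZMod p, β ≠ 1728 → V.valuation (jj (τ β) - 1728) = 1 := by
    intro β hβ
    have h1 := hunit 1728 β (by simpa using hβ)
    exact_mod_cast h1
  have hmem : ∀ β, jj (τ β) ∈ V := by
    intro β
    have e : jj (τ β) = ((β.val : ℤ) : ℂ) - (((β.val : ℤ) : ℂ) - jj (τ β)) := by ring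
    rw [e]
    exact sub_mem (intCast_mem V _) ((V.valuation_le_one_iff _).1 (hnear β).le)
  have hcm : ∀ β, IsCM (τ β) := fun β => IA.isCM_fix hp (hdet β) (hrel β)
  have hpC : (p : ℂ) ≠ 0 := by exact_mod_cast hp.ne_zero
  have hp0 : V.valuation (p : ℂ) ≠ 0 := by
    rw [Valuation.ne_zero_iff]
    exact hpC
  have hexp : ∀ k : ℕ, 2 ≤ (p - 1) * p ^ k := by
    intro k
    have h3 : 0 < p ^ k := pow_pos hp.pos k
    have h4 : 2 ≤ p - 1 := by omega
    calc 2 = 2 * 1 := rfl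
      _ ≤ _ := Nat.mul_le_mul h4 h3
  refine ⟨fun β => (M β).trace.natAbs, ?_, ?_, ?_, ?_⟩
  · intro β
    have h1 := IA.trace_lt hp (hdet β) (hrel β)
    rw [Int.natAbs_sq]
    exact h1
  · intro s
    refine Set.ncard_le_ncard_of_injOn (fun β => jj (τ β)) ?_ ?_ ?_
    · intro β hβ
      exact ⟨τ β, M β, hdet β, hrel β, hβ, rfl⟩
    · intro β _ β' _ h
      dsimp only at h
      by_contra hne
      have h1 := hnear β
      have h2 := hnear β'
      rw [h] at h1
      have h3 : V.valuation (((β.val : ℤ) - (β'.val : ℤ) : ℤ) : ℂ) < 1 := by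
        have e : (((β.val : ℤ) - (β'.val : ℤ) : ℤ) : ℂ) = (((β.val : ℤ) : ℂ) - jj (τ β')) -
            (((β'.val : ℤ) : ℂ) - jj (τ β')) := by
          push_cast
          ring
        rw [e]
        exact Valuation.map_sub_lt _ h1 h2
      have h4 : ¬ (p : ℤ) ∣ ((β.val : ℤ) - (β'.val : ℤ)) := by
        intro h5
        apply hne
        have h6 : (((β.val : ℤ) - (β'.val : ℤ) : ℤ) : ZMod p) = 0 :=
          (ZMod.intCast_zmod_eq_zero_iff_dvd _ _).2 h5
        push_cast at h6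
        rw [ZMod.natCast_zmod_val, ZMod.natCast_zmod_val] at h6
        exact sub_eq_zero.1 h6
      rw [IA.trace_unit hp hpV h4] at h3
      exact lt_irrefl _ h3
    · obtain ⟨C', -, hC'⟩ := IA.card_SS 1 one_pos
      exact (hC' p hp s).1
  · intro m b z h0 h1 ht hx1 hx2 hz
    dsimp only at ht
    set β : ZMod p := (b : ZMod p) with hβ
    have hbc : V.valuation ((b : ℂ) - jj (τ β)) ≤ V.valuation (p : ℂ) :=
      IA.near hp hp2 hpV P (hdet _) (htr _ ht) (hrel _) (hbτ b)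
    have e : z - jj (τ β) = (z - b) + ((b : ℂ) - jj (τ β)) := by ring
    have hz1 : V.valuation (z - jj (τ β)) < 1 := by
      rw [e]
      exact Valuation.map_add_lt _ hx1 (hbτ b)
    have hz2 : ∀ k : ℕ, m ≤ k →
        V.valuation (z - jj (τ β)) ^ ((p - 1) * p ^ k) ≠ V.valuation (p : ℂ) := by
      intro k hk
      rw [e]
      rcases le_or_gt (V.valuation (z - b)) (V.valuation (p : ℂ)) with h | h
      · have h2 : V.valuation ((z - b) + ((b : ℂ) - jj (τ β))) ≤ V.valuation (p : ℂ) :=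
          (Valuation.map_add _ _ _).trans (max_le h hbc)
        refine ne_of_lt ?_
        calc V.valuation ((z - b) + ((b : ℂ) - jj (τ β))) ^ ((p - 1) * p ^ k)
            ≤ V.valuation (p : ℂ) ^ ((p - 1) * p ^ k) := pow_le_pow_left' h2 _
          _ ≤ V.valuation (p : ℂ) ^ 2 := pow_le_pow_right_of_le_one' hpV.le (hexp k)
          _ = V.valuation (p : ℂ) * V.valuation (p : ℂ) := sq _
          _ < V.valuation (p : ℂ) * 1 := (mul_lt_mul_iff_right₀ (zero_lt_iff.2 hp0)).2 hpV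
          _ = _ := mul_one _
      · rw [Valuation.map_add_eq_of_lt_left _ (lt_of_le_of_lt hbc h)]
        exact hx2 k hk
    refine tt_mem (t := (M β).trace.natAbs) ?_ ⟨τ β, M β, hdet β, hrel β, rfl, rfl⟩
      (cm_mem hp hp2 hpV (hcm β) ⟨1, M β, one_pos, by rw [hdet, pow_one], htr β ht, hrel β⟩
        (hn0 β h0) (hn1 β h1) m hz hz1 hz2)
    have h2 := IA.trace_lt hp (hdet β) (hrel β)
    rw [← Int.natAbs_sq] at h2
    have h3 : (M β).trace.natAbs ^ 2 < 4 * p := by exact_mod_cast h2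
    exact lt_of_le_of_lt (Nat.le_self_pow two_ne_zero _) h3
  · intro b b' x y h0 h1 ht hx hy hI
    dsimp only at ht
    obtain ⟨A, w, w', hA, hAr, rfl, rfl⟩ := hI
    have hG : G0 P V (jj (τ (b' : ZMod p))) := ⟨hmem _, ord_of_fix hp hpV P (hmem _) (e := 1)
      one_pos (by rw [hdet, pow_one]) (htr _ ht) (hrel _), hn0 _ h0, hn1 _ h1⟩
    have near : ∀ (a : ℤ) (z : ℂ), V.valuation (z - a) < 1 →
        V.valuation (z - jj (τ (a : ZMod p))) < 1 := by
      intro a z hz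
      have e : z - jj (τ (a : ZMod p)) = (z - a) + ((a : ℂ) - jj (τ (a : ZMod p))) := by ring
      rw [e]
      exact Valuation.map_add_lt _ hz (hbτ a)
    have h2 := near_isog' hp hp2 hpV P (hcm _) (hcm _) (hmem _) hG hA hAr (near b _ hx)
      (near b' _ hy)
    have h3 := IA.sq_of_isog hp (hdet (b : ZMod p)) (hdet (b' : ZMod p)) (hrel _) (hrel _) h2
    dsimp only
    rw [Int.natAbs_sq, Int.natAbs_sq]
    exact h3

end Pool.Agent.H22.LP
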