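import Pool.Agent.H22.LP.Level

/-!
Special subvarieties which meet a product of sets that are in ordinary residue disks or contain no
singular moduli, and contain no isogenous points.
-/

set_option autoImplicit false

namespace Pool.Agent.H22.LP

open UpperHalfPlane H294ZP Function Polynomial Pool.Agent.N135.ZO
open Pool.Agent.N101.ZP (psi ev2 psi_of_rel psi_family eval_sp1)

variable {p : ℕ} {V : ValuationSubring ℂ}

/-- The singular moduli in the residue disk of one of them. -/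
theorem cm_level' (hl : p.Prime) (hl2 : p ≠ 2) (hpV : V.valuation (p : ℂ) < 1) (P : Pkg p hl.pos)
    {τ τ' : ℍ} (hcm : IsCM τ) (hcm' : IsCM τ') (h : G0 P V (jj τ))
    (hlt : V.valuation (jj τ' - jj τ) < 1) (hne : jj τ' ≠ jj τ) :
    ∃ k, V.valuation (jj τ' - jj τ) ^ ((p - 1) * p ^ k) = V.valuation (p : ℂ) ∧
      ∃ y, ev2 (psi (p ^ (k + 1))) (jj τ) y = 0 ∧ ev2 (psi (p ^ (k + 1))) y (jj τ') = 0 := by
  obtain ⟨N, hN, hns, hNV, hg⟩ := exists_good hpV hcm h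
  obtain ⟨N', hN', hns', hNV', hg'⟩ := exists_good hpV hcm' (h.congr hlt)
  obtain ⟨S⟩ := exists_stp hl hl2 hpV P hN hNV
  obtain ⟨S'⟩ := exists_stp hl hl2 hpV P hN' hNV'
  have e : ((xx (⟨τ', hg'⟩ : {τ : ℍ // Good hl.pos P V N' τ}) -
      xx (⟨τ, hg⟩ : {τ : ℍ // Good hl.pos P V N τ}) : V) : ℂ) = jj τ' - jj τ := by
    push_cast
    rfl
  obtain ⟨i, hi⟩ := fact_c hl2 hpV S S' hN hns hN' hns' ⟨τ, hg⟩ ⟨τ', hg'⟩ (by
    intro hu
    rw [V.valuation_eq_one_iff, e] at hu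
    rw [hu] at hlt
    exact lt_irrefl _ hlt)
  obtain ⟨k, h1, h2⟩ := radius' hl2 hpV S S' hN hns hN' hns' i ⟨τ, hg⟩ ⟨τ', hg'⟩ hi
    (fun h => hne (congrArg (fun w : V => (w : ℂ)) h)) (by rw [e]; exact hlt)
  rw [e] at h1
  refine ⟨k, h1, jj (S.nx^[k + 1] ⟨τ, hg⟩).1, ?_, ?_⟩
  · obtain ⟨B, hB, hrelB⟩ := stp_rel S ⟨τ, hg⟩ (k + 1)
    exact psi_of_rel (A := B) (pow_pos hl.pos (k + 1)) hB hrelB
  · obtain ⟨A, hA, hrel⟩ := stp_rel S' ⟨τ', hg'⟩ (k + 1)
    have h4 : jj (S'.nx^[k + 1] ⟨τ', hg'⟩).1 = jj (S.nx^[k + 1] ⟨τ, hg⟩).1 :=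
      congrArg (fun w : V => (w : ℂ)) h2
    have h5 := psi_of_rel (A := A.adjugate) (pow_pos hl.pos (k + 1)) (by rw [det_adj, hA])
      (rel_adj hrel)
    rwa [h4] at h5

/-- the value `z` and the values which are joined to it by two isogenies of degree `p ^ (k + 1)`,
`k < m` -/
def LevT (p m : ℕ) (z : ℂ) : Set ℂ :=
  {z} ∪ ⋃ k ∈ Finset.range m, ⋃ y ∈ {y | ev2 (psi (p ^ (k + 1))) z y = 0},
    {w | ev2 (psi (p ^ (k + 1))) y w = 0}

theorem levT_finite (hl : p.Prime) (m : ℕ) (z : ℂ) : (LevT p m z).Finite := by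
  refine (Set.finite_singleton _).union ((Finset.finite_toSet _).biUnion fun k _ => ?_)
  exact (roots_finite (pow_pos hl.pos _) _).biUnion fun y _ => roots_finite (pow_pos hl.pos _) _

/-- There are only finitely many singular moduli in an ordinary residue disk outside of the small
circles. -/
theorem cm_mem (hl : p.Prime) (hl2 : p ≠ 2) (hpV : V.valuation (p : ℂ) < 1) {τ : ℍ}
    (hcm : IsCM τ) (hord : OrdAt p τ) (h0 : V.valuation (jj τ) = 1)
    (h1 : V.valuation (jj τ - 1728) = 1) (m : ℕ) {z : ℂ} (hz : ∃ τ' : ℍ, IsCM τ' ∧ jj τ' = z)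
    (h2 : V.valuation (z - jj τ) < 1)
    (h3 : ∀ k : ℕ, m ≤ k → V.valuation (z - jj τ) ^ ((p - 1) * p ^ k) ≠ V.valuation (p : ℂ)) :
    z ∈ LevT p m (jj τ) := by
  classical
  obtain ⟨P⟩ := exists_pkg hl hl2
  obtain ⟨f, M, hf, hdet, htr, hfix⟩ := hord
  have hm0 : jj τ ∈ V := (V.valuation_le_one_iff _).1 h0.le
  have hG : G0 P V (jj τ) := ⟨hm0, ord_of_fix hl hpV P hm0 hf hdet htr hfix, h0, h1⟩
  obtain ⟨τ', hτ', rfl⟩ := hz
  by_cases hne : jj τ' = jj τ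
  · exact Or.inl hne
  · obtain ⟨k, hk, y, hy, hy'⟩ := cm_level' hl hl2 hpV P hcm hτ' hG h2 hne
    refine Or.inr (Set.mem_iUnion₂.2 ⟨k, ?_, Set.mem_iUnion₂.2 ⟨y, hy, hy'⟩⟩)
    rw [Finset.mem_range]
    by_contra hcon
    exact h3 k (not_lt.1 hcon) hk

/-- the singular moduli in a set -/
def CMof (U : Set ℂ) : Set ℂ := {z : ℂ | (∃ τ : ℍ, IsCM τ ∧ jj τ = z) ∧ z ∈ U}

open Pool.Agent.N101.Y1 in
/-- the special coordinate subspaces with constants in a given set -/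
def Fam (n : ℕ) (T : Set ℂ) : Set (Set (Fin n → ℂ)) :=
  {Z | Special Z ∧ ∃ (I : Finset (Fin n)) (w : Fin n → ℂ), (∀ i, w i ∈ insert 0 T) ∧
    Z = {x : Fin n → ℂ | ∀ i ∈ I, x i = w i}}

theorem fam_finite (n : ℕ) {T : Set ℂ} (hT : T.Finite) : (Fam n T).Finite := by
  refine Set.Finite.subset (Set.finite_iUnion (ι := Finset (Fin n)) (f := fun I =>
    (fun w : Fin n → ℂ => {x : Fin n → ℂ | ∀ i ∈ I, x i = w i}) '' {w | ∀ i, w i ∈ insert 0 T})
      fun I => Set.Finite.image _ (Set.Finite.pi' fun i => hT.insert 0)) ?_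
  rintro Z ⟨-, I, w, hw, rfl⟩
  exact Set.mem_iUnion.2 ⟨I, w, hw, rfl⟩

open Pool.Agent.N101.Y1 in
/-- Special subvarieties which meet a product of sets. -/
theorem special_mem {n : ℕ} {U : Fin n → Set ℂ} {T : Set ℂ} (hU : ∀ i, CMof (U i) ⊆ T)
    (hiso : ∀ i j, i ≠ j → ∀ x ∈ U i, ∀ y ∈ U j, ¬ Isog x y) {Z : Set (Fin n → ℂ)}
    (hZ : Special Z) (hne : (Z ∩ Set.univ.pi U).Nonempty) : Z ∈ Fam n T := by
  classical
  refine ⟨hZ, ?_⟩
  obtain ⟨x, hxZ, hx⟩ := hne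
  obtain ⟨D, rfl⟩ := special_iff.1 hZ
  refine ⟨Finset.univ.filter fun i => D.c i = none,
    fun i => if D.c i = none then jj (D.w i) else 0, ?_, ?_⟩
  · intro i
    dsimp only
    split_ifs with hi
    · right
      refine hU i ⟨⟨D.w i, D.hw i hi, rfl⟩, ?_⟩
      have h1 := hx i (Set.mem_univ i)
      rwa [const_coord D hxZ hi] at h1
    · exact Or.inl rfl
  · have hinj : ∀ i j k, D.c i = some k → D.c j = some k → i = j := by
      intro i j k hi hj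
      by_contra hne
      obtain ⟨A, z, w, hA, hrel, hz, hw⟩ := rel_coord D hxZ hi hj
      exact hiso i j hne (x i) (hx i (Set.mem_univ i)) (x j) (hx j (Set.mem_univ j))
        ⟨A, z, w, hA, hrel, hz, hw⟩
    rw [locus_of_inj D (fun i => if D.c i = none then jj (D.w i) else 0)
      (fun i hi => (if_pos hi).symm) hinj]
    ext y
    simp

end Pool.Agent.H22.LP
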