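import Pool.Agent.H22.LP.Max
import Pool.Graph.R_seed8.W282.ZP.LV

/-!
Coordinates near the cusp, and the covering form.
-/

set_option autoImplicit false

namespace Pool.Agent.H22.LP

open UpperHalfPlane H294ZP Function Polynomial Pool.Agent.N135.ZO
open Pool.Agent.N101.Y1

/-- commensurable absolute values -/
def Comm (V : ValuationSubring ℂ) (z w : ℂ) : Prop :=
  ∃ a b : ℕ, 0 < a ∧ 0 < b ∧ V.valuation z ^ a = V.valuation w ^ b

theorem isog_comm {V : ValuationSubring ℂ} {x y : ℂ} (h : Isog x y) (hx : 1 < V.valuation x) :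
    Comm V x y := by
  have hy : 1 < V.valuation y := by
    by_contra hcon
    exact absurd hx (not_lt.2 (isog_le h.symm (not_lt.1 hcon)))
  obtain ⟨A, w, w', hA, hAr, rfl, rfl⟩ := h
  obtain ⟨N, hN⟩ : ∃ N : ℕ, A.det = N := ⟨A.det.toNat, by omega⟩
  have hN0 : 0 < N := by
    rw [hN] at hA
    exact_mod_cast hA
  obtain ⟨Ψ, -, h1, h2⟩ := Pool.Agent.W282.ZP.modular_relation N hN0
  have h3 := h1 w w' (A 0 0) (A 0 1) (A 1 0) (A 1 1) (by rw [← det_eq, hN]) hAr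
  obtain ⟨a, ha⟩ := (h2 ℂ V (jj w) (jj w') h3).2 hx
  refine ⟨a ^ 2, N, ?_, hN0, ha.symm⟩
  rcases Nat.eq_zero_or_pos a with rfl | h4
  · rw [zero_pow two_ne_zero, pow_zero] at ha
    exact absurd ha (one_lt_pow₀ hy hN0.ne').ne'
  · positivity

theorem comm_symm {V : ValuationSubring ℂ} {z w : ℂ} (h : Comm V z w) : Comm V w z := by
  obtain ⟨a, b, ha, hb, h⟩ := h
  exact ⟨b, a, hb, ha, h.symm⟩

/-- The local theorem. -/
theorem local_inf {p : ℕ} {V : ValuationSubring ℂ} (hl : p.Prime) (hl2 : p ≠ 2)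
    (hpV : V.valuation (p : ℂ) < 1) {n : ℕ} (τ : Fin n → ℍ) (i₀ j₀ : Fin n) (W : Finset (Fin n))
    (hcm : ∀ i, IsCM (τ i))
    (hord : ∀ i, i ∉ W → ¬ (i = i₀ ∧ i = j₀) → OrdAt p (τ i) ∧ V.valuation (jj (τ i)) = 1 ∧
      V.valuation (jj (τ i) - 1728) = 1) {x : Fin n → ℂ}
    (hiso : ∀ i j, i ≠ j → (i ∈ W ∧ j ∈ W ∧ Comm V (x i) (x j)) ∨
      (i ∉ W ∧ j ∉ W ∧ Isog (jj (τ i)) (jj (τ j))) → (i = i₀ ∧ j = j₀) ∨ (i = j₀ ∧ j = i₀))
    (m : ℕ) {T : Set ℂ} (hT : ∀ i, LevT p m (jj (τ i)) ⊆ T)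
    (hxW : ∀ i ∈ W, 1 < V.valuation (x i))
    (hx : ∀ i, i ∉ W → V.valuation (x i - jj (τ i)) < 1 ∧ (¬ (i = i₀ ∧ i = j₀) → ∀ k : ℕ, m ≤ k →
      V.valuation (x i - jj (τ i)) ^ ((p - 1) * p ^ k) ≠ V.valuation (p : ℂ))) : x ∈ Reg n T := by
  classical
  obtain ⟨P⟩ := exists_pkg hl hl2
  have hle : ∀ i, V.valuation (jj (τ i)) ≤ 1 := fun i => cm_le ⟨τ i, hcm i, rfl⟩
  have hmem : ∀ i, jj (τ i) ∈ V := fun i => (V.valuation_le_one_iff _).1 (hle i)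
  have hG : ∀ i, i ∉ W → ¬ (i = i₀ ∧ i = j₀) → G0 P V (jj (τ i)) := by
    intro i hiW hi
    obtain ⟨⟨f, M, hf, hdet, htr, hfix⟩, h0, h1⟩ := hord i hiW hi
    exact ⟨hmem i, ord_of_fix hl hpV P (hmem i) hf hdet htr hfix, h0, h1⟩
  refine ⟨fun i => {z | (i ∈ W → V.valuation z = V.valuation (x i)) ∧
    (i ∉ W → V.valuation (z - jj (τ i)) < 1 ∧ (¬ (i = i₀ ∧ i = j₀) → ∀ k : ℕ, m ≤ k →
      V.valuation (z - jj (τ i)) ^ ((p - 1) * p ^ k) ≠ V.valuation (p : ℂ)))}, i₀, j₀, ?_, ?_,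
    fun i => ⟨fun _ => rfl, hx i⟩⟩
  · intro i hi
    rintro z ⟨hz1, hz2, hz3⟩
    by_cases hiW : i ∈ W
    · have h1 := hxW i hiW
      rw [← hz2 hiW] at h1
      exact absurd h1 (not_lt.2 (cm_le hz1))
    · obtain ⟨h2, h3, h4⟩ := hord i hiW hi
      exact hT i (cm_mem hl hl2 hpV (hcm i) h2 h3 h4 m hz1 (hz3 hiW).1 ((hz3 hiW).2 hi))
  · intro i j hij hn1 hn2 z hz w hw hI
    have hpair : ¬ ((i ∈ W ∧ j ∈ W ∧ Comm V (x i) (x j)) ∨
        (i ∉ W ∧ j ∉ W ∧ Isog (jj (τ i)) (jj (τ j)))) := by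
      intro h
      rcases hiso i j hij h with h4 | h4
      · exact hn1 h4
      · exact hn2 h4
    rw [not_or] at hpair
    obtain ⟨hp1, hp2⟩ := hpair
    by_cases hiW : i ∈ W
    · have hz1 : 1 < V.valuation z := by
        rw [hz.1 hiW]
        exact hxW i hiW
      by_cases hjW : j ∈ W
      · have h1 := isog_comm hI hz1
        obtain ⟨a, b, ha, hb, h2⟩ := h1
        rw [hz.1 hiW, hw.1 hjW] at h2
        exact hp1 ⟨hiW, hjW, a, b, ha, hb, h2⟩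
      · exact absurd hz1 (not_lt.2 (isog_le hI.symm (near_le (hle j) (hw.2 hjW).1)))
    · by_cases hjW : j ∈ W
      · have hw1 : 1 < V.valuation w := by
          rw [hw.1 hjW]
          exact hxW j hjW
        exact absurd hw1 (not_lt.2 (isog_le hI (near_le (hle i) (hz.2 hiW).1)))
      · by_cases hj : j = i₀ ∧ j = j₀
        · have hi : ¬ (i = i₀ ∧ i = j₀) := fun h => hij (h.1.trans hj.1.symm)
          obtain ⟨A, w, w', hA, hAr, rfl, rfl⟩ := hI.symm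
          have h3 := near_isog' hl hl2 hpV P (hcm j) (hcm i) (hmem j) (hG i hiW hi) hA hAr
            (hw.2 hjW).1 (hz.2 hiW).1
          exact hp2 ⟨hiW, hjW, h3.symm⟩
        · obtain ⟨A, w, w', hA, hAr, rfl, rfl⟩ := hI
          have h3 := near_isog' hl hl2 hpV P (hcm i) (hcm j) (hmem i) (hG j hjW hj) hA hAr
            (hz.2 hiW).1 (hw.2 hjW).1
          exact hp2 ⟨hiW, hjW, h3⟩

/-- Every atypical subvariety is contained in a maximal one. -/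
theorem exists_max {n : ℕ} {V W : Set (Fin n → ℂ)} (hW : ∃ Z, Special Z ∧ Atypical W Z V) :
    ∃ A, ((∃ Z, Special Z ∧ Atypical A Z V) ∧
      ∀ A', (∃ Z, Special Z ∧ Atypical A' Z V) → A ⊆ A' → A' = A) ∧ W ⊆ A := by
  have hle : ∀ A, (∃ Z, Special Z ∧ Atypical A Z V) → vdim A ≤ Fintype.card (Fin n) := by
    rintro A ⟨Z, -, hA⟩
    rw [← vdim_univ]
    exact vdim_mono hA.1.1 sub_univ (Set.subset_univ A)
  obtain ⟨d, hd⟩ : ∃ d, Fintype.card (Fin n) - vdim W = d := ⟨_, rfl⟩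
  induction d using Nat.strong_induction_on generalizing W with
  | _ d ih =>
    by_cases hmax : ∀ A', (∃ Z, Special Z ∧ Atypical A' Z V) → W ⊆ A' → A' = W
    · exact ⟨W, ⟨hW, hmax⟩, Set.Subset.refl W⟩
    · push Not at hmax
      obtain ⟨A', hA', hsub, hne⟩ := hmax
      have h1 : W ⊂ A' := ⟨hsub, fun h => hne (Set.Subset.antisymm h hsub)⟩
      obtain ⟨Z, hZ, hWZ⟩ := hW
      obtain ⟨Z', hZ', hAZ'⟩ := id hA'
      have h2 := vdim_strict hWZ.1.1 hAZ'.1.1 h1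
      have h3 := hle A' hA'
      obtain ⟨A, hA, hA'A⟩ := ih (Fintype.card (Fin n) - vdim A') (by omega) hA' rfl
      exact ⟨A, hA, hsub.trans hA'A⟩

/-- The covering form. -/
theorem exists_cover {n : ℕ} {R V : Set (Fin n → ℂ)} (hV : Subvariety V)
    (hfin : {A | ((∃ Z, Special Z ∧ Atypical A Z V) ∧
      ∀ A', (∃ Z, Special Z ∧ Atypical A' Z V) → A ⊆ A' → A' = A) ∧ (A ∩ R).Nonempty}.Finite) :
    ∃ T : Set (Set (Fin n → ℂ)), T.Finite ∧ (∀ S ∈ T, Special S ∧ S ≠ Set.univ) ∧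
      ∀ W, (∃ Z, Special Z ∧ Atypical W Z V) → (W ∩ R).Nonempty → ∃ S ∈ T, W ⊆ S := by
  classical
  have h1 : ∀ A : Set (Fin n → ℂ), (∃ Z, Special Z ∧ Atypical A Z V) →
      ∃ S, Special S ∧ S ≠ Set.univ ∧ A ⊆ S := by
    rintro A ⟨Z, hZ, hA⟩
    refine ⟨Z, hZ, ?_, fun x hx => (hA.1.2.1 hx).1⟩
    rintro rfl
    have h2 := hA.2
    have h3 := vdim_mono hA.1.1 hV fun x hx => (hA.1.2.1 hx).2
    rw [vdim_univ] at h2
    omega
  choose! S hS1 hS2 hS3 using h1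
  refine ⟨S '' {A | ((∃ Z, Special Z ∧ Atypical A Z V) ∧
      ∀ A', (∃ Z, Special Z ∧ Atypical A' Z V) → A ⊆ A' → A' = A) ∧ (A ∩ R).Nonempty},
    hfin.image S, ?_, ?_⟩
  · rintro _ ⟨A, ⟨⟨hA, -⟩, -⟩, rfl⟩
    exact ⟨hS1 A hA, hS2 A hA⟩
  · rintro W hW ⟨x, hxW, hxR⟩
    obtain ⟨A, hA, hWA⟩ := exists_max hW
    exact ⟨S A, ⟨A, ⟨hA, x, hWA hxW, hxR⟩, rfl⟩, hWA.trans (hS3 A hA.1)⟩

end Pool.Agent.H22.LP
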