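import Pool.Agent.H22.LP.Spec

/-!
The singular moduli in an ordinary residue disk, and the special subvarieties near a CM point.
-/

set_option autoImplicit false

namespace Pool.Agent.H22.LP

open UpperHalfPlane H294ZP Function Polynomial Pool.Agent.N135.ZO
open Pool.Agent.N101.ZP (psi ev2 psi_of_rel psi_family eval_sp1)

variable {V : ValuationSubring ℂ} {p : ℕ}

theorem roots_finite {N : ℕ} (hN : 0 < N) (x : ℂ) : {z : ℂ | ev2 (psi N) x z = 0}.Finite := by
  obtain ⟨τ, rfl⟩ := Pool.Agent.N101.ZP.jj_surj x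
  obtain ⟨ι, _, A, g, h1, h2, h3, -⟩ := psi_family hN
  refine (Set.finite_range fun k => jj (g k τ)).subset ?_
  intro z hz
  have h : ev2 (psi N) (jj τ) z = 0 := hz
  rw [← eval_sp1, h3, eval_prod] at h
  obtain ⟨k, -, hk⟩ := Finset.prod_eq_zero_iff.1 h
  rw [eval_sub, eval_X, eval_C, sub_eq_zero] at hk
  exact ⟨k, hk.symm⟩

theorem phi_near {hl : 0 < p} (hp : p.Prime) (hp2 : p ≠ 2) (P : Pkg p hl)
    (hpV : V.valuation (p : ℂ) < 1) {x y φx φy : V}
    (hx : IsUnit (P.h.eval₂ (ρV V) x)) (hy : IsUnit (P.h.eval₂ (ρV V) y)) (h : IsPhi P x φx)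
    (h' : IsPhi P y φy) (ht : ∃ w, (y - x) ^ (p - 1) = p * w) :
    ∃ b, φy - φx = p * (y - x) * b := by
  obtain ⟨a, b, -, hab⟩ := phi_sub P hpV hx hy h h'
  obtain ⟨r, hr⟩ := pow_prime_add hp hp2 x (y - x)
  obtain ⟨w, hw⟩ := ht
  have e : (y - x) ^ p = p * (y - x) * w := by
    have : p = (p - 1) + 1 := by
      have := hp.two_le
      omega
    have e1 : (y - x) ^ p = (y - x) ^ (p - 1) * (y - x) := by
      nth_rw 1 [this]
      rw [pow_succ]
    rw [e1, hw]
    ring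
  rw [show x + (y - x) = y by ring, e] at hr
  refine ⟨(x ^ (p - 1) + (y - x) * r + w) * a + b, ?_⟩
  rw [hab, hr]
  ring

section facts

variable {hl : p.Prime} {P : Pkg p hl.pos} {N N' : ℕ}

theorem stp_rel (S : Stp hl P V N) (s : {τ : ℍ // Good hl.pos P V N τ}) (i : ℕ) :
    ∃ M : M2, M.det = ((p ^ i : ℕ) : ℤ) ∧ Rel M s.1 (S.nx^[i] s).1 := by
  induction i with
  | zero => exact ⟨1, by simp, rel_one _⟩
  | succ i ih =>
    obtain ⟨M, hM, hrel⟩ := ih
    rw [iterate_succ_apply']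
    obtain ⟨k, -, hs⟩ := S.spec (S.nx^[i] s)
    refine ⟨gk p k * M, ?_, ?_⟩
    · rw [det_mul', det_gk, hM]
      push_cast
      ring
    · rw [hs]
      exact hrel.mul (rel_hh hl.pos k _)

/-- the distances of different ordinary CM points in one residue class, with the level -/
theorem radius' (hl2 : p ≠ 2) (hpV : V.valuation (p : ℂ) < 1) (S : Stp hl P V N)
    (S' : Stp hl P V N') (hN : 0 < N) (hns : ∀ s : ℕ, s ^ 2 ≠ N) (hN' : 0 < N')
    (hns' : ∀ s : ℕ, s ^ 2 ≠ N') (i : ℕ) :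
    ∀ (s : {τ : ℍ // Good hl.pos P V N τ}) (s' : {τ : ℍ // Good hl.pos P V N' τ}),
    xx (S'.nx^[i] s') = xx (S.nx^[i] s) → xx s' ≠ xx s → V.valuation ((xx s' - xx s : V) : ℂ) < 1 →
    ∃ k, V.valuation ((xx s' - xx s : V) : ℂ) ^ ((p - 1) * p ^ k) = V.valuation (p : ℂ) ∧
      xx (S'.nx^[k + 1] s') = xx (S.nx^[k + 1] s) := by
  have hp0 : (p : ℂ) ≠ 0 := by exact_mod_cast hl.ne_zero
  induction i with
  | zero => intro s s' h hne; exact absurd h hne
  | succ i ih =>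
    intro s s' h hne hlt
    rw [iterate_succ_apply, iterate_succ_apply] at h
    rcases lt_trichotomy (V.valuation ((xx s' - xx s : V) : ℂ) ^ (p - 1)) (V.valuation (p : ℂ)) with
      h1 | h1 | h1
    · exact absurd (fact_b hl2 hpV S S' hN hns hN' hns' s s' (cl_of_val hp0 h1)) hne
    · refine ⟨0, by rw [pow_zero, mul_one]; exact h1, ?_⟩
      rw [zero_add, iterate_one, iterate_one]
      have hne0 : V.valuation (p : ℂ) ≠ 0 := by rwa [Valuation.ne_zero_iff]
      have hm : ((xx s' - xx s : V) : ℂ) ^ (p - 1) / p ∈ V := by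
        rw [← V.valuation_le_one_iff, map_div₀, map_pow, h1, div_self hne0]
      obtain ⟨b, hb⟩ := phi_near hl hl2 P hpV (xx_h s) (xx_h s') (S.phi s) (S'.phi s')
        ⟨⟨_, hm⟩, by
          apply Subtype.ext
          push_cast
          rw [mul_div_cancel₀ _ hp0]⟩
      refine fact_b hl2 hpV S S' hN hns hN' hns' (S.nx s) (S'.nx s') ?_
      rw [hb]
      exact Cl.next hl hl2 hpV _ _
    · have h2 := phi_far hl hl2 P hpV (xx_h s) (xx_h s') (S.phi s) (S'.phi s') h1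
      have hne0 : V.valuation ((xx s' - xx s : V) : ℂ) ≠ 0 := by
        rw [Valuation.ne_zero_iff]
        intro h0
        apply hne
        have : xx s' - xx s = 0 := Subtype.ext h0
        exact sub_eq_zero.1 this
      have hne' : xx (S'.nx s') ≠ xx (S.nx s) := by
        intro h3
        rw [h3, sub_self] at h2
        have h4 : V.valuation ((0 : V) : ℂ) = 0 := by push_cast; exact map_zero _
        rw [h4] at h2
        exact pow_ne_zero _ hne0 h2.symm
      have hlt' : V.valuation ((xx (S'.nx s') - xx (S.nx s) : V) : ℂ) < 1 := by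
        rw [h2]
        exact pow_lt_one₀ zero_le hlt hl.ne_zero
      obtain ⟨k, hk, hk'⟩ := ih (S.nx s) (S'.nx s') h hne' hlt'
      refine ⟨k + 1, ?_, ?_⟩
      · rw [h2, ← pow_mul] at hk
        rw [← hk]
        congr 1
        ring
      · rw [iterate_succ_apply, iterate_succ_apply (S.nx)]
        exact hk'

theorem nx_fixed (hpV : V.valuation (p : ℂ) < 1) (S : Stp hl P V N)
    (s : {τ : ℍ // Good hl.pos P V N τ}) {M : M2} (hdet : M.det = p)
    (htr : ¬ (p : ℤ) ∣ M.trace) (hfix : Rel M s.1 s.1) (i : ℕ) : xx (S.nx^[i] s) = xx s := by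
  obtain ⟨k, hk, hk'⟩ := IA.can_fix hl hpV s.2.mem hdet htr hfix
  have h1 : IsPhi P (xx s) (xx s) := isPhi_of hl P hk rfl (by rw [hk', xx_coe])
  induction i with
  | zero => rfl
  | succ i ih =>
    rw [iterate_succ_apply']
    have h2 := S.phi (S.nx^[i] s)
    rw [ih] at h2
    exact phi_unique P hpV (xx_h s) h2 h1

end facts

/-- The singular moduli in the residue disk of a canonical one. -/
theorem cm_level (hl : p.Prime) (hl2 : p ≠ 2) (hpV : V.valuation (p : ℂ) < 1) (P : Pkg p hl.pos)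
    {τ τ' : ℍ} (hcm : IsCM τ) (hcm' : IsCM τ') (h : G0 P V (jj τ)) {M : M2} (hdet : M.det = p)
    (htr : ¬ (p : ℤ) ∣ M.trace) (hfix : Rel M τ τ)
    (hlt : V.valuation (jj τ' - jj τ) < 1) (hne : jj τ' ≠ jj τ) :
    ∃ k, V.valuation (jj τ' - jj τ) ^ ((p - 1) * p ^ k) = V.valuation (p : ℂ) ∧
      ev2 (psi (p ^ (k + 1))) (jj τ) (jj τ') = 0 := by
  obtain ⟨N, hN, hns, hNV, hg⟩ := exists_good hpV hcm h
  obtain ⟨N', hN', hns', hNV', hg'⟩ := exists_good hpV hcm' (h.congr hlt)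
  obtain ⟨S⟩ := exists_stp hl hl2 hpV P hN hNV
  obtain ⟨S'⟩ := exists_stp hl hl2 hpV P hN' hNV'
  have e : ((xx (⟨τ', hg'⟩ : {τ : ℍ // Good hl.pos P V N' τ}) -
      xx (⟨τ, hg⟩ : {τ : ℍ // Good hl.pos P V N τ}) : V) : ℂ) = jj τ' - jj τ := by
    push_cast
    rfl
  obtain ⟨i, hi⟩ := fact_c hl2 hpV S S' hN hns hN' hns' ⟨τ, hg⟩ ⟨τ', hg'⟩ (by
    intro hu
    rw [V.valuation_eq_one_iff, e] at hu
    rw [hu] at hlt
    exact lt_irrefl _ hlt)
  obtain ⟨k, h1, h2⟩ := radius' hl2 hpV S S' hN hns hN' hns' i ⟨τ, hg⟩ ⟨τ', hg'⟩ hi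
    (fun h => hne (congrArg (fun w : V => (w : ℂ)) h)) (by rw [e]; exact hlt)
  rw [e] at h1
  refine ⟨k, h1, ?_⟩
  have h3 := nx_fixed hpV S ⟨τ, hg⟩ hdet htr hfix (k + 1)
  rw [h3] at h2
  obtain ⟨A, hA, hrel⟩ := stp_rel S' ⟨τ', hg'⟩ (k + 1)
  have h4 : jj (S'.nx^[k + 1] ⟨τ', hg'⟩).1 = jj τ := congrArg (fun w : V => (w : ℂ)) h2
  have h5 := psi_of_rel (A := A.adjugate) (pow_pos hl.pos (k + 1)) (by rw [det_adj, hA])
    (rel_adj hrel)
  rwa [h4] at h5

/-- the canonical value and the singular moduli of level at most `m` -/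
def Lev (p m : ℕ) (τ : ℍ) : Set ℂ := {z | z = jj τ ∨ ∃ k < m, ev2 (psi (p ^ (k + 1))) (jj τ) z = 0}

theorem lev_finite (hl : p.Prime) (m : ℕ) (τ : ℍ) : (Lev p m τ).Finite := by
  refine Set.Finite.subset (s := {jj τ} ∪ ⋃ k ∈ Finset.range m,
    {z | ev2 (psi (p ^ (k + 1))) (jj τ) z = 0}) ?_ ?_
  · exact (Set.finite_singleton _).union ((Finset.finite_toSet _).biUnion fun k _ =>
      roots_finite (pow_pos hl.pos _) _)
  · rintro z (hz | ⟨k, hk, hz⟩)
    · exact Or.inl hz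
    · exact Or.inr (Set.mem_iUnion₂.2 ⟨k, Finset.mem_range.2 hk, hz⟩)

open Pool.Agent.N101.Y1 in
/-- Special subvarieties with a point near a CM point whose coordinates are canonical and pairwise
not isogenous. -/
theorem special_near' (hl : p.Prime) (hl2 : p ≠ 2) (hpV : V.valuation (p : ℂ) < 1) {n : ℕ}
    (τ : Fin n → ℍ) (hcm : ∀ i, IsCM (τ i)) (M : Fin n → M2) (hdet : ∀ i, (M i).det = p)
    (htr : ∀ i, ¬ (p : ℤ) ∣ (M i).trace) (hfix : ∀ i, Rel (M i) (τ i) (τ i))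
    (h0 : ∀ i, V.valuation (jj (τ i)) = 1) (h1 : ∀ i, V.valuation (jj (τ i) - 1728) = 1)
    (hiso : ∀ i j, i ≠ j → ¬ Isog (jj (τ i)) (jj (τ j))) {Z : Set (Fin n → ℂ)} (hZ : Special Z)
    {x : Fin n → ℂ} (hx : x ∈ Z) {m : ℕ} (hnear : ∀ i, V.valuation (x i - jj (τ i)) < 1 ∧
      ∀ k : ℕ, m ≤ k → V.valuation (x i - jj (τ i)) ^ ((p - 1) * p ^ k) ≠ V.valuation (p : ℂ)) :
    ∃ (I : Finset (Fin n)) (w : Fin n → ℂ), (∀ i, w i ∈ Lev p m (τ i)) ∧
      Z = {x | ∀ i ∈ I, x i = w i} := by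
  classical
  obtain ⟨P⟩ := exists_pkg hl hl2
  have hmem : ∀ i, jj (τ i) ∈ V := fun i => (V.valuation_le_one_iff _).1 (h0 i).le
  have hG : ∀ i, G0 P V (jj (τ i)) := fun i => ⟨hmem i, ord_of_fix hl hpV P (hmem i) (e := 1)
    one_pos (by rw [hdet, pow_one]) (htr i) (hfix i), h0 i, h1 i⟩
  obtain ⟨D, rfl⟩ := special_iff.1 hZ
  refine ⟨Finset.univ.filter fun i => D.c i = none,
    fun i => if D.c i = none then jj (D.w i) else jj (τ i), ?_, ?_⟩
  · intro i
    dsimp only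
    split_ifs with hi
    · by_cases hne : jj (D.w i) = jj (τ i)
      · exact Or.inl hne
      · have h2 := const_coord D hx hi
        obtain ⟨h3, h4⟩ := hnear i
        rw [h2] at h3 h4
        obtain ⟨k, hk, hk'⟩ := cm_level hl hl2 hpV P (hcm i) (D.hw i hi) (hG i) (hdet i) (htr i)
          (hfix i) h3 hne
        refine Or.inr ⟨k, ?_, hk'⟩
        by_contra hcon
        exact h4 k (not_lt.1 hcon) hk
    · exact Or.inl rfl
  · have hinj : ∀ i j k, D.c i = some k → D.c j = some k → i = j := by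
      intro i j k hi hj
      by_contra hne
      obtain ⟨A, z, w, hA, hrel, hz, hw⟩ := rel_coord D hx hi hj
      refine hiso i j hne (near_isog hl hl2 hpV P (hcm i) (hcm j) (hG i) (hG j) hA hrel ?_ ?_)
      · rw [hz]
        exact (hnear i).1
      · rw [hw]
        exact (hnear j).1
    rw [locus_of_inj D (fun i => if D.c i = none then jj (D.w i) else jj (τ i))
      (fun i hi => (if_pos hi).symm) hinj]
    ext y
    simp

end Pool.Agent.H22.LP
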