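import Pool.Agent.H22.LP.Gen

/-!
Maximal atypical subvarieties which meet a product of sets, when the exceptional coordinates are a
single coordinate or a single pair of coordinates.
-/

set_option autoImplicit false

namespace Pool.Agent.H22.LP

open UpperHalfPlane H294ZP Function Polynomial Pool.Agent.N135.ZO
open Pool.Agent.Y226 (ZZ ιZ ιZ_apply PsiE map_PsiE modular_family)

section loc

variable {p : ℕ} {V : ValuationSubring ℂ}

/-- Isogenous points in the classes of two singular moduli one of which is ordinary. -/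
theorem near_isog' (hl : p.Prime) (hl2 : p ≠ 2) (hpV : V.valuation (p : ℂ) < 1) (P : Pkg p hl.pos)
    {τ τ' : ℍ} (hcm : IsCM τ) (hcm' : IsCM τ') (h : jj τ ∈ V) (h' : G0 P V (jj τ'))
    {w w' : ℍ} {M : M2} (hM : 0 < M.det) (hrel : Rel M w w')
    (hw : V.valuation (jj w - jj τ) < 1) (hw' : V.valuation (jj w' - jj τ') < 1) :
    Isog (jj τ) (jj τ') := by
  classical
  obtain ⟨N, hN⟩ : ∃ N : ℕ, M.det = N := ⟨M.det.toNat, by omega⟩
  have hN0 : 0 < N := by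
    rw [hN] at hM
    exact_mod_cast hM
  obtain ⟨ι, _, α, δ, β, g, Q, h1, h2, -, h3, h4⟩ := modular_family N hN0
  have h5 := h4 w w' (M 0 0) (M 0 1) (M 1 0) (M 1 1) (by rw [← det_eq, hN]) hrel
  have h6 := psi_congr h h'.mem hw hw' Q _ h5
  rw [← h3] at h6
  have hrelk : ∀ k, Rel !![(α k : ℤ), β k; 0, (δ k : ℤ)] τ (g k τ) := by
    intro k
    have := h2 k τ
    simp only [N135.ZO.Rel, N135.ZO.den, N135.ZO.num, Matrix.of_apply, Matrix.cons_val', Matrix.cons_val_zero,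
      Matrix.cons_val_one, Matrix.cons_val_fin_one]
    push_cast
    rw [← this]
    ring
  have hdetk : ∀ k, 0 < (!![(α k : ℤ), β k; 0, (δ k : ℤ)] : M2).det := by
    intro k
    rw [Matrix.det_fin_two_of, mul_zero, sub_zero]
    have := (h1 k).1
    have := (h1 k).2.1
    positivity
  have hmem : ∀ k, jj (g k τ) ∈ V := fun k => rel_mem (hdetk k) (hrelk k) h
  have h7 : ∃ k, V.valuation (jj τ' - jj (g k τ)) < 1 := by
    by_contra hcon
    push Not at hcon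
    rw [map_prod] at h6
    have h8 : ∀ k, V.valuation (jj τ' - jj (g k τ)) = 1 := fun k =>
      le_antisymm (val_le (sub_mem h'.mem (hmem k))) (hcon k)
    rw [Finset.prod_congr rfl (fun k _ => h8 k), Finset.prod_const_one] at h6
    exact lt_irrefl _ h6
  obtain ⟨k, hk⟩ := h7
  have h9 : V.valuation (jj (g k τ) - jj τ') < 1 := by
    rw [← Valuation.map_neg]
    rwa [neg_sub]
  have h10 := cm_isog hl hl2 hpV P (isCM_of_rel (hdetk k) (hrelk k) hcm) hcm' (h'.congr h9) hk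
  exact Isog.trans ⟨_, τ, g k τ, hdetk k, hrelk k, rfl, rfl⟩ h10

end loc

open Pool.Agent.N101.Y1

/-- Special subvarieties have relative codimension at most one in finitely many. -/
theorem codim_one {n : ℕ} {U : Fin n → Set ℂ} {T : Set ℂ} (i₀ j₀ : Fin n)
    (hU : ∀ i, ¬ (i = i₀ ∧ i = j₀) → CMof (U i) ⊆ T)
    (hiso : ∀ i j, i ≠ j → ¬ (i = i₀ ∧ j = j₀) → ¬ (i = j₀ ∧ j = i₀) →
      ∀ x ∈ U i, ∀ y ∈ U j, ¬ Isog x y) {Z : Set (Fin n → ℂ)} (hZ : Special Z)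
    (hne : (Z ∩ Set.univ.pi U).Nonempty) :
    ∃ Z' ∈ Fam n T, Z ⊆ Z' ∧ vdim Z' ≤ vdim Z + 1 := by
  classical
  obtain ⟨x, hxZ, hx⟩ := hne
  obtain ⟨D, rfl⟩ := special_iff.1 hZ
  set J : Finset (Fin n) := Finset.univ.filter fun i => D.c i = none ∧ ¬ (i = i₀ ∧ i = j₀) with hJ
  have hJm : ∀ i, i ∈ J ↔ D.c i = none ∧ ¬ (i = i₀ ∧ i = j₀) := fun i => by simp [hJ]
  -- the special subvariety
  let E : SD (Fin n) :=
    { c := fun i => if i ∈ J then none else some i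
      g := fun _ => 1
      w := D.w
      hg := fun _ => by rw [Matrix.det_one]; exact one_pos
      hw := fun i hi => by
        by_cases h : i ∈ J
        · exact D.hw i ((hJm i).1 h).1
        · rw [if_neg h] at hi
          exact absurd hi (by simp) }
  have hEn : ∀ i, E.c i = none ↔ i ∈ J := by
    intro i
    show (if i ∈ J then none else some i) = none ↔ i ∈ J
    split_ifs with h
    · simp [h]
    · simp [h]
  have hEs : ∀ i k, E.c i = some k → i ∉ J ∧ i = k := by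
    intro i k h
    have h' : (if i ∈ J then none else some i) = some k := h
    by_cases hi : i ∈ J
    · rw [if_pos hi] at h'
      exact absurd h' (by simp)
    · rw [if_neg hi] at h'
      exact ⟨hi, Option.some.inj h'⟩
  have hEloc : zclosure E.locus = {y | ∀ i ∈ J, y i = (if i ∈ J then jj (D.w i) else 0)} := by
    rw [locus_of_inj E (fun i => if i ∈ J then jj (D.w i) else 0)]
    · ext y
      simp only [Set.mem_ofPred_eq, hEn]
    · intro i hi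
      rw [if_pos ((hEn i).1 hi)]
    · intro i j k hi hj
      rw [(hEs i k hi).2, (hEs j k hj).2]
  refine ⟨zclosure E.locus, ⟨special_iff.2 ⟨E, rfl⟩, J, fun i => if i ∈ J then jj (D.w i) else 0,
    ?_, hEloc⟩, ?_, ?_⟩
  · intro i
    dsimp only
    split_ifs with hi
    · right
      have h1 := (hJm i).1 hi
      refine hU i h1.2 ⟨⟨D.w i, D.hw i h1.1, rfl⟩, ?_⟩
      have h2 := hx i (Set.mem_univ i)
      rwa [const_coord D hxZ h1.1] at h2
    · exact Or.inl rfl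
  · rw [hEloc]
    intro y hy i hi
    rw [const_coord D hy ((hJm i).1 hi).1, if_pos hi]
  · rw [SD.vdim_eq_card, SD.vdim_eq_card]
    have h1 : E.used ⊆ insert i₀ (Finset.univ.filter fun i => i ∉ J ∧ i ≠ i₀) := by
      intro k hk
      obtain ⟨i, hi⟩ := E.mem_used.1 hk
      obtain ⟨h2, rfl⟩ := hEs i k hi
      rw [Finset.mem_insert, Finset.mem_filter]
      by_cases h3 : i = i₀
      · exact Or.inl h3
      · exact Or.inr ⟨Finset.mem_univ _, h2, h3⟩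
    refine (Finset.card_le_card h1).trans ((Finset.card_insert_le _ _).trans ?_)
    refine Nat.add_le_add_right ?_ 1
    have h2 : ∀ i, i ∉ J ∧ i ≠ i₀ → ∃ k, D.c i = some k := by
      rintro i ⟨h3, h4⟩
      rw [← Option.ne_none_iff_exists']
      intro h5
      exact h3 ((hJm i).2 ⟨h5, fun h => h4 h.1⟩)
    refine Finset.card_le_card_of_injOn (fun i => (D.c i).getD i₀) ?_ ?_
    · intro i hi
      rw [Finset.mem_coe, Finset.mem_filter] at hi
      obtain ⟨k, hk⟩ := h2 i hi.2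
      dsimp only
      rw [hk, Option.getD_some]
      exact D.mem_used.2 ⟨i, hk⟩
    · intro i hi j hj hij
      rw [Finset.mem_coe, Finset.mem_filter] at hi hj
      obtain ⟨k, hk⟩ := h2 i hi.2
      obtain ⟨k', hk'⟩ := h2 j hj.2
      dsimp only at hij
      rw [hk, hk', Option.getD_some, Option.getD_some] at hij
      subst hij
      by_contra hne
      obtain ⟨A, z, w, hA, hrel, hz, hw⟩ := rel_coord D hxZ hk hk'
      exact hiso i j hne (fun h => hi.2.2 h.1) (fun h => hj.2.2 h.2) (x i)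
        (hx i (Set.mem_univ i)) (x j) (hx j (Set.mem_univ j)) ⟨A, z, w, hA, hrel, hz, hw⟩

/-- Maximal atypical subvarieties. -/
theorem max_comp {n : ℕ} {R : Set (Fin n → ℂ)} {F : Set (Set (Fin n → ℂ))}
    (hF : ∀ Z ∈ F, Special Z) (h : ∀ Z : Set (Fin n → ℂ), Special Z → (Z ∩ R).Nonempty →
      ∃ Z' ∈ F, Z ⊆ Z' ∧ vdim Z' ≤ vdim Z + 1) {V A : Set (Fin n → ℂ)} (hV : Subvariety V)
    (hA : ∃ Z, Special Z ∧ Atypical A Z V)
    (hmax : ∀ A', (∃ Z, Special Z ∧ Atypical A' Z V) → A ⊆ A' → A' = A)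
    (hR : (A ∩ R).Nonempty) : ∃ Z ∈ F, IsComp A (Z ∩ V) := by
  obtain ⟨Z, hZ, hAt⟩ := hA
  obtain ⟨x, hxA, hxR⟩ := hR
  obtain ⟨Z', hZ', hsub, hdim⟩ := h Z hZ ⟨x, (hAt.1.2.1 hxA).1, hxR⟩
  refine ⟨Z', hZ', ?_⟩
  have h1 : A ⊆ Z' ∩ V := fun y hy => ⟨hsub (hAt.1.2.1 hy).1, (hAt.1.2.1 hy).2⟩
  obtain ⟨A', hA', hAA'⟩ := exists_comp hAt.1.1 ((hF Z' hZ').sub.closed.inter hV.closed) h1
  by_cases heq : A' = A
  · rw [← heq]
    exact hA'
  · have h2 : A ⊂ A' := ⟨hAA', fun h3 => heq (Set.Subset.antisymm h3 hAA')⟩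
    have h3 := vdim_strict hAt.1.1 hA'.1 h2
    have h4 := hAt.2
    exact absurd (hmax A' ⟨Z', hF Z' hZ', hA', by omega⟩ hAA') heq

/-- The set of the points which lie in a product of sets without isogenous points whose singular
moduli are in `T`, with the exception of one coordinate or one pair of coordinates. -/
def Reg (n : ℕ) (T : Set ℂ) : Set (Fin n → ℂ) :=
  {x | ∃ (U : Fin n → Set ℂ) (i₀ j₀ : Fin n), (∀ i, ¬ (i = i₀ ∧ i = j₀) → CMof (U i) ⊆ T) ∧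
    (∀ i j, i ≠ j → ¬ (i = i₀ ∧ j = j₀) → ¬ (i = j₀ ∧ j = i₀) →
      ∀ x ∈ U i, ∀ y ∈ U j, ¬ Isog x y) ∧ ∀ i, x i ∈ U i}

theorem reg_comp {n : ℕ} {T : Set ℂ} {V A : Set (Fin n → ℂ)} (hV : Subvariety V)
    (hA : ∃ Z, Special Z ∧ Atypical A Z V)
    (hmax : ∀ A', (∃ Z, Special Z ∧ Atypical A' Z V) → A ⊆ A' → A' = A)
    (hR : (A ∩ Reg n T).Nonempty) : ∃ Z ∈ Fam n T, IsComp A (Z ∩ V) := by
  refine max_comp (fun Z hZ => hZ.1) ?_ hV hA hmax hR
  rintro Z hZ ⟨x, hxZ, U, i₀, j₀, h1, h2, h3⟩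
  exact codim_one i₀ j₀ h1 h2 hZ ⟨x, hxZ, fun i _ => h3 i⟩

theorem comp_finite {n : ℕ} {F : Set (Set (Fin n → ℂ))} (hF : F.Finite) (hF' : ∀ Z ∈ F, Special Z)
    {V : Set (Fin n → ℂ)} (hV : Subvariety V) : {A | ∃ Z ∈ F, IsComp A (Z ∩ V)}.Finite := by
  refine Set.Finite.subset (hF.biUnion (t := fun Z => {A | Special Z ∧ IsComp A (Z ∩ V)}) ?_) ?_
  · intro Z hZ
    exact (finite_comp ((hF' Z hZ).sub.closed.inter hV.closed)).subset fun A hA => hA.2
  · rintro A ⟨Z, hZ, hc⟩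
    exact Set.mem_iUnion₂.2 ⟨Z, hZ, hF' Z hZ, hc⟩

theorem isog_le {V : ValuationSubring ℂ} {x y : ℂ} (h : Isog x y) (hx : V.valuation x ≤ 1) :
    V.valuation y ≤ 1 := by
  obtain ⟨A, w, w', hA, hAr, rfl, rfl⟩ := h
  rw [V.valuation_le_one_iff] at hx ⊢
  exact rel_mem hA hAr hx

theorem cm_le {V : ValuationSubring ℂ} {z : ℂ} (h : ∃ τ : ℍ, IsCM τ ∧ jj τ = z) :
    V.valuation z ≤ 1 := by
  obtain ⟨τ, hτ, rfl⟩ := h
  exact IA.val_int (singular_modulus_integral τ hτ)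

theorem near_le {V : ValuationSubring ℂ} {s z : ℂ} (hs : V.valuation s ≤ 1)
    (h : V.valuation (z - s) < 1) : V.valuation z ≤ 1 := by
  have e : z = (z - s) + s := by ring
  rw [e]
  exact (Valuation.map_add _ _ _).trans (max_le h.le hs)

/-- The local theorem. -/
theorem local_mem {p : ℕ} {V : ValuationSubring ℂ} (hl : p.Prime) (hl2 : p ≠ 2)
    (hpV : V.valuation (p : ℂ) < 1) {n : ℕ} (τ : Fin n → ℍ) (i₀ j₀ : Fin n) (W : Finset (Fin n))
    (hcm : ∀ i, IsCM (τ i))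
    (hord : ∀ i, i ∉ W → ¬ (i = i₀ ∧ i = j₀) → OrdAt p (τ i) ∧ V.valuation (jj (τ i)) = 1 ∧
      V.valuation (jj (τ i) - 1728) = 1)
    (hiso : ∀ i j, i ≠ j → (i ∈ W ∧ j ∈ W) ∨ (i ∉ W ∧ j ∉ W ∧ Isog (jj (τ i)) (jj (τ j))) →
      (i = i₀ ∧ j = j₀) ∨ (i = j₀ ∧ j = i₀))
    (m : ℕ) {T : Set ℂ} (hT : ∀ i, LevT p m (jj (τ i)) ⊆ T) {x : Fin n → ℂ}
    (hxW : ∀ i ∈ W, 1 < V.valuation (x i))
    (hx : ∀ i, i ∉ W → V.valuation (x i - jj (τ i)) < 1 ∧ (¬ (i = i₀ ∧ i = j₀) → ∀ k : ℕ, m ≤ k →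
      V.valuation (x i - jj (τ i)) ^ ((p - 1) * p ^ k) ≠ V.valuation (p : ℂ))) : x ∈ Reg n T := by
  classical
  obtain ⟨P⟩ := exists_pkg hl hl2
  have hle : ∀ i, V.valuation (jj (τ i)) ≤ 1 := fun i => cm_le ⟨τ i, hcm i, rfl⟩
  have hmem : ∀ i, jj (τ i) ∈ V := fun i => (V.valuation_le_one_iff _).1 (hle i)
  have hG : ∀ i, i ∉ W → ¬ (i = i₀ ∧ i = j₀) → G0 P V (jj (τ i)) := by
    intro i hiW hi
    obtain ⟨⟨f, M, hf, hdet, htr, hfix⟩, h0, h1⟩ := hord i hiW hi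
    exact ⟨hmem i, ord_of_fix hl hpV P (hmem i) hf hdet htr hfix, h0, h1⟩
  refine ⟨fun i => {z | (i ∈ W → 1 < V.valuation z) ∧ (i ∉ W → V.valuation (z - jj (τ i)) < 1 ∧
    (¬ (i = i₀ ∧ i = j₀) → ∀ k : ℕ, m ≤ k →
      V.valuation (z - jj (τ i)) ^ ((p - 1) * p ^ k) ≠ V.valuation (p : ℂ)))}, i₀, j₀, ?_, ?_,
    fun i => ⟨hxW i, hx i⟩⟩
  · intro i hi
    rintro z ⟨hz1, hz2, hz3⟩
    by_cases hiW : i ∈ W
    · exact absurd (hz2 hiW) (not_lt.2 (cm_le hz1))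
    · obtain ⟨h2, h3, h4⟩ := hord i hiW hi
      exact hT i (cm_mem hl hl2 hpV (hcm i) h2 h3 h4 m hz1 (hz3 hiW).1 ((hz3 hiW).2 hi))
  · intro i j hij hn1 hn2 x hx y hy hI
    have hpair : ¬ ((i ∈ W ∧ j ∈ W) ∨ (i ∉ W ∧ j ∉ W ∧ Isog (jj (τ i)) (jj (τ j)))) := by
      intro h
      rcases hiso i j hij h with h4 | h4
      · exact hn1 h4
      · exact hn2 h4
    rw [not_or] at hpair
    obtain ⟨hp1, hp2⟩ := hpair
    by_cases hiW : i ∈ W
    · have hjW : j ∉ W := fun h => hp1 ⟨hiW, h⟩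
      exact absurd (hx.1 hiW) (not_lt.2 (isog_le hI.symm (near_le (hle j) (hy.2 hjW).1)))
    · by_cases hjW : j ∈ W
      · exact absurd (hy.1 hjW) (not_lt.2 (isog_le hI (near_le (hle i) (hx.2 hiW).1)))
      · by_cases hj : j = i₀ ∧ j = j₀
        · have hi : ¬ (i = i₀ ∧ i = j₀) := fun h => hij (h.1.trans hj.1.symm)
          obtain ⟨A, w, w', hA, hAr, rfl, rfl⟩ := hI.symm
          have h3 := near_isog' hl hl2 hpV P (hcm j) (hcm i) (hmem j) (hG i hiW hi) hA hAr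
            (hy.2 hjW).1 (hx.2 hiW).1
          exact hp2 ⟨hiW, hjW, h3.symm⟩
        · obtain ⟨A, w, w', hA, hAr, rfl, rfl⟩ := hI
          have h3 := near_isog' hl hl2 hpV P (hcm i) (hcm j) (hmem i) (hG j hjW hj) hA hAr
            (hx.2 hiW).1 (hy.2 hjW).1
          exact hp2 ⟨hiW, hjW, h3⟩

end Pool.Agent.H22.LP
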