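import Pool.Agent.H22.IA.Pri
import Pool.Graph.R_pool_sql_team_seeded_63374d34.N101.ZP.GeoD

/-!
Special subvarieties with a point near a CM point in general position at an ordinary place.
-/

set_option autoImplicit false

namespace Pool.Agent.H22.LP

open UpperHalfPlane H294ZP MvPolynomial Pool.Agent.N101.Y1 Pool.Agent.N101.ZP
open Pool.Agent.N135.ZO (M2 Rel)

section locus

variable {ι : Type} [Fintype ι]

/-- the constant coordinates of the points of a special subvariety -/
theorem const_coord (D : SD ι) {x : ι → ℂ} (hx : x ∈ zclosure D.locus) {i : ι}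
    (hi : D.c i = none) : x i = jj (D.w i) := by
  have h1 : (X i - C (jj (D.w i)) : MvPolynomial ι ℂ) ∈ van D.locus := by
    rintro _ ⟨t, rfl⟩
    rw [map_sub, eval_X, eval_C]
    dsimp only
    rw [D.pz_none t hi, sub_self]
  have h2 := hx _ h1
  rw [map_sub, eval_X, eval_C, sub_eq_zero] at h2
  exact h2

/-- two coordinates with the same parameter are isogenous -/
theorem rel_coord (D : SD ι) {x : ι → ℂ} (hx : x ∈ zclosure D.locus) {i j k : ι}
    (hi : D.c i = some k) (hj : D.c j = some k) :
    ∃ (A : M2) (z w : ℍ), 0 < A.det ∧ Rel A z w ∧ jj z = x i ∧ jj w = x j := by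
  have hpos : 0 < (D.g j * (D.g i).adjugate).det := by
    rw [N135.ZO.det_mul', N135.ZO.det_adj]
    exact mul_pos (D.hg j) (D.hg i)
  obtain ⟨N, hN⟩ : ∃ N : ℕ, (N : ℤ) = (D.g j * (D.g i).adjugate).det :=
    ⟨((D.g j * (D.g i).adjugate).det).toNat, Int.toNat_of_nonneg hpos.le⟩
  have hN0 : 0 < N := by
    have : (0 : ℤ) < N := by rw [hN]; exact hpos
    exact_mod_cast this
  have h1 : MvPolynomial.map (algebraMap Fa ℂ) (mv2 (psi N) i j) ∈ van D.locus := by
    rintro _ ⟨t, rfl⟩
    rw [ev_eq, MvPolynomial.aeval_map_algebraMap, aeval_mv2]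
    exact psi_of_rel (A := D.g j * (D.g i).adjugate) hN0 hN.symm
      ((N135.ZO.rel_adj (D.rel_pz t hi)).mul (D.rel_pz t hj))
  have h2 := hx _ h1
  rw [ev_eq, MvPolynomial.aeval_map_algebraMap, aeval_mv2] at h2
  obtain ⟨z, hz⟩ := jj_surj (x i)
  rw [← hz] at h2
  obtain ⟨A, w, hA, hrel, hw⟩ := rel_of_psi hN0 h2
  exact ⟨A, z, w, by rw [hA]; exact_mod_cast hN0, hrel, hz, hw⟩

/-- special subvarieties with independent coordinates -/
theorem locus_of_inj (D : SD ι) (s : ι → ℂ) (hs : ∀ i, D.c i = none → jj (D.w i) = s i)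
    (hinj : ∀ i j k, D.c i = some k → D.c j = some k → i = j) :
    zclosure D.locus = {x | ∀ i, D.c i = none → x i = s i} := by
  classical
  refine Set.Subset.antisymm (fun x hx i hi => ?_) (fun x hx => ?_)
  · rw [const_coord D hx hi, hs i hi]
  · have h3 : ∀ i, ∃ σ : ℍ, jj (gact (D.g i) (D.hg i) σ) = x i := by
      intro i
      obtain ⟨z, hz⟩ := jj_surj (x i)
      have hadj : 0 < (D.g i).adjugate.det := by
        rw [N135.ZO.det_adj]
        exact D.hg _
      refine ⟨gact (D.g i).adjugate hadj z, ?_⟩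
      have h4 := N135.ZO.rel_adj (gact_rel hadj z)
      rw [SD.adj_adj] at h4
      rw [← gact_unique (D.hg i) h4, hz]
    choose σ hσ using h3
    let t : ι → ℍ := fun k => if h : ∃ i, D.c i = some k then σ h.choose else I
    refine subset_zclosure _ ⟨t, funext fun i => ?_⟩
    show jj (D.pz t i) = x i
    rcases hc : D.c i with _ | k
    · rw [D.pz_none t hc, hs i hc, hx i hc]
    · have hk : ∃ i, D.c i = some k := ⟨i, hc⟩
      have h4 : hk.choose = i := hinj _ _ k hk.choose_spec hc
      have h5 : t k = σ i := by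
        simp only [t]
        rw [dif_pos hk, h4]
      rw [D.pz_some t hc, h5]
      exact hσ i

end locus

end Pool.Agent.H22.LP
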